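import Pool.Agent.Q81.FadPoly

/-! MP_09943a_nt, Q1: over every algebraically closed field `K` of characteristic `p > 0`, the
fixed-point counts of every confined endomorphism of the vector group `G_a^r` (any `r`) have the
FAD form.  (By the problem file this is the only case of Q1 that is open.) -/

namespace Pool.Agent.Results.MP_09943a_nt.VectorGroupsFAD

/-- `(a_n)_{n ≥ 1}` is a gcd sequence with period `d`. -/
def GcdPeriod {α : Type*} (a : ℕ → α) (d : ℕ) : Prop :=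
  1 ≤ d ∧ ∀ n, 1 ≤ n → a n = a (Nat.gcd n d)

/-- The FAD form of a sequence `(σ_n)_{n ≥ 1}` of natural numbers:
`σ_n = |d_n| c^n r_n |n|_p^{s_n} p^{-t_n |n|_p^{-1}}` for all `n ≥ 1`, where `d_n = det (A^n - 1)`
for an integer matrix `A` and `d_n ≠ 0` for all `n ≥ 1`, `c` is a power of `p`, `(r_n)` is a gcd
sequence of positive rationals, `(s_n)` and `(t_n)` are gcd sequences of natural numbers that have
a period coprime to `p`; `|n|_p` is `padicNorm p n`, the last power is a power of reals. -/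
def FADForm (p : ℕ) (σ : ℕ → ℕ) : Prop :=
  ∃ (k : ℕ) (A : Matrix (Fin k) (Fin k) ℤ) (c : ℕ) (r : ℕ → ℚ) (s t : ℕ → ℕ),
    (∀ n, 1 ≤ n → (A ^ n - 1).det ≠ 0) ∧
    (∃ j : ℕ, c = p ^ j) ∧
    (∃ d, GcdPeriod r d) ∧ (∀ n, 1 ≤ n → 0 < r n) ∧
    (∃ d, GcdPeriod s d ∧ Nat.Coprime d p) ∧
    (∃ d, GcdPeriod t d ∧ Nat.Coprime d p) ∧
    ∀ n, 1 ≤ n → (σ n : ℝ) = |(((A ^ n - 1).det : ℤ) : ℝ)| * (c : ℝ) ^ n * ((r n : ℚ) : ℝ) *
      ((padicNorm p (n : ℚ) : ℚ) : ℝ) ^ (s n) *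
      (p : ℝ) ^ (-((t n : ℝ) * ((padicNorm p (n : ℚ) : ℚ) : ℝ)⁻¹))

/-- An endomorphism of the algebraic group `G_a^r` over the algebraically closed field `K`, given
on `K`-points: an additive map `K^r → K^r` whose coordinates are polynomials. -/
structure VecEnd (K : Type*) [Field K] (r : ℕ) where
  /-- the map on `K`-points -/
  toFun : (Fin r → K) → (Fin r → K)
  poly : ∀ i, ∃ P : MvPolynomial (Fin r) K, ∀ v, toFun v i = MvPolynomial.eval v P
  add : ∀ v w, toFun (v + w) = toFun v + toFun w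

/-- the set of points fixed by the `n`-th iterate. -/
def VecEnd.fixed {K : Type*} [Field K] {r : ℕ} (σ : VecEnd K r) (n : ℕ) : Set (Fin r → K) :=
  {v | σ.toFun^[n] v = v}

/-- `σ` is confined: every `σ_n` (`n ≥ 1`) is finite. -/
def VecEnd.Confined {K : Type*} [Field K] {r : ℕ} (σ : VecEnd K r) : Prop :=
  ∀ n, 1 ≤ n → (σ.fixed n).Finite

/-- For every prime `p`, every algebraically closed field `K` of characteristic `p`, every `r` and
every confined endomorphism `σ` of `G_a^r` over `K` the sequence `σ_n = # Fix(σ^n)` has the FAD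
form; more precisely `σ_n = p^(a n - t_n |n|_p^{-1})` with a constant `a` and a gcd sequence
`(t_n)` of natural numbers with a period prime to `p`. -/
theorem result (p : ℕ) [Fact p.Prime] (K : Type*) [Field K] [IsAlgClosed K] [CharP K p] (r : ℕ)
    (σ : VecEnd K r) (hσ : σ.Confined) :
    FADForm p (fun n => (σ.fixed n).ncard) ∧
    ∃ (a : ℕ) (t : ℕ → ℕ) (d : ℕ), GcdPeriod t d ∧ Nat.Coprime d p ∧
      ∀ n, 1 ≤ n → (σ.fixed n).ncard * p ^ (t n * p ^ (padicValNat p n)) = p ^ (a * n) := by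
  have hp := (Fact.out : p.Prime)
  obtain ⟨a, t, d, h1, h2, h3, h4⟩ := Pool.Agent.Q81.Fad.vec_count (p := p) σ.toFun σ.add σ.poly
    (fun n hn => hσ n hn)
  have hd : GcdPeriod t d := ⟨h1, fun n hn => h3 n hn⟩
  have hc : Nat.Coprime d p := ((Nat.Prime.coprime_iff_not_dvd hp).2 h2).symm
  refine ⟨⟨1, 0, p ^ a, fun _ => 1, fun _ => 0, t, ?_, ⟨a, rfl⟩, ⟨1, le_rfl, fun _ _ => rfl⟩,
    fun _ _ => one_pos, ⟨1, ⟨le_rfl, fun _ _ => rfl⟩, Nat.coprime_one_left p⟩, ⟨d, hd, hc⟩, ?_⟩,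
    a, t, d, hd, hc, fun n hn => h4 n hn⟩
  · intro n hn
    rw [zero_pow (by omega), zero_sub, Matrix.det_neg]
    simp
  · intro n hn
    have h5 : (padicNorm p (n : ℚ) : ℚ)⁻¹ = ((p ^ (padicValNat p n) : ℕ) : ℚ) := by
      rw [padicNorm.eq_zpow_of_nonzero (by exact_mod_cast (by omega : n ≠ 0)),
        padicValRat.of_nat, zpow_neg, inv_inv, zpow_natCast]
      push_cast
      rfl
    have h6 : ((padicNorm p (n : ℚ) : ℚ) : ℝ)⁻¹ = ((p ^ (padicValNat p n) : ℕ) : ℝ) := by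
      rw [← Rat.cast_inv, h5]
      push_cast
      rfl
    have h7 := h4 n hn
    have hp0 : (p : ℝ) ≠ 0 := by exact_mod_cast hp.ne_zero
    have hpp : (0 : ℝ) < p := by exact_mod_cast hp.pos
    rw [h6, ← Nat.cast_mul, Real.rpow_neg hpp.le, Real.rpow_natCast]
    have h8 : ((0 : Matrix (Fin 1) (Fin 1) ℤ) ^ n - 1).det = -1 := by
      rw [zero_pow (by omega), zero_sub, Matrix.det_neg]
      simp
    have h9 : ((σ.fixed n).ncard : ℝ) * (p : ℝ) ^ (t n * p ^ (padicValNat p n)) =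
        ((p : ℝ) ^ a) ^ n := by
      rw [← pow_mul]
      exact_mod_cast h7
    have h10 : (p : ℝ) ^ (t n * p ^ (padicValNat p n)) ≠ 0 := pow_ne_zero _ hp0
    rw [h8]
    simp only [pow_zero, mul_one, Rat.cast_one, Int.cast_neg, Int.cast_one, abs_neg, abs_one,
      one_mul, Nat.cast_pow]
    rw [← h9]
    field_simp

end Pool.Agent.Results.MP_09943a_nt.VectorGroupsFAD
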